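import Mathlib
import Pool.Agent.helper60.MW.AsmF

set_option autoImplicit false

/-!
Moser's worm problem (no convexity, connectedness or closedness): the infimum `mu` of the areas of worm
covers is the limit, with an explicit error bound, of explicit finite integer problems.
-/

namespace Pool.Agent.Results.MP_f477b1_co.FiniteProblems

open MeasureTheory Set

/-- A worm: the image of `[0, 1]` under a `1`-Lipschitz map into the Euclidean plane `ℂ`. -/
def IsWorm (w : Set ℂ) : Prop :=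
  ∃ f : ℝ → ℂ, LipschitzOnWith 1 f (Icc 0 1) ∧ w = f '' Icc 0 1

/-- A worm cover: a Lebesgue measurable set `X` in the plane such that every worm `w` satisfies
`w ⊆ g (X)` for some orientation-preserving rigid motion `g (z) = a * z + b` with `‖a‖ = 1`. -/
def IsWormCover (X : Set ℂ) : Prop :=
  NullMeasurableSet X volume ∧
    ∀ w : Set ℂ, IsWorm w → ∃ a b : ℂ, ‖a‖ = 1 ∧ w ⊆ (fun z => a * z + b) '' X

/-- The infimum of the areas of worm covers. -/
noncomputable def mu : ENNReal := sInf {A : ENNReal | ∃ X : Set ℂ, IsWormCover X ∧ volume X = A}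

/-- an explicit function -/
def LL (k : ℕ) : ℕ := 2 ^ (2 ^ (2 ^ (10 * k + 100)))

/-- a lattice path in `ℤ²` with `n` steps, starting at `0`, with steps of length at most `n + 2` -/
def PathP (n : ℕ) (P : Fin (n + 1) → ℤ × ℤ) : Prop :=
  P 0 = (0, 0) ∧ ∀ i : Fin n, ((P i.succ).1 - (P i.castSucc).1) ^ 2 +
    ((P i.succ).2 - (P i.castSucc).2) ^ 2 ≤ ((n : ℤ) + 2) ^ 2

/-- `n ^ 4` times the first coordinate of the image of `p / n²` under `z ↦ (α / n²) z + γ / n²`
(pairs of integers are read as Gaussian integers) -/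
def ps1 (n : ℕ) (α γ p : ℤ × ℤ) : ℤ := α.1 * p.1 - α.2 * p.2 + (n : ℤ) ^ 2 * γ.1

/-- the same for the second coordinate -/
def ps2 (n : ℕ) (α γ p : ℤ × ℤ) : ℤ := α.1 * p.2 + α.2 * p.1 + (n : ℤ) ^ 2 * γ.2

/-- both coordinates of the corner `s / m` of the lattice square number `s` of side `1 / m` differ by at most
`2 / m` from those of the image point (a condition on integers) -/
def Near (m n : ℕ) (α γ p s : ℤ × ℤ) : Prop :=
  |s.1 * (n : ℤ) ^ 4 - m * ps1 n α γ p| ≤ 2 * (n : ℤ) ^ 4 ∧ |s.2 * (n : ℤ) ^ 4 - m * ps2 n α γ p| ≤ 2 * (n : ℤ) ^ 4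

/-- the Gaussian integer `α` satisfies `n² - 1 ≤ |α| ≤ n² + 1` -/
def Rot (n : ℕ) (α : ℤ × ℤ) : Prop :=
  ((n : ℤ) ^ 2 - 1) ^ 2 ≤ α.1 ^ 2 + α.2 ^ 2 ∧ α.1 ^ 2 + α.2 ^ 2 ≤ ((n : ℤ) ^ 2 + 1) ^ 2

/-- every lattice path can be moved so that all lattice squares of side `1 / m` near its points are in `S` -/
def FinCov (m n : ℕ) (S : Finset (ℤ × ℤ)) : Prop :=
  ∀ P : Fin (n + 1) → ℤ × ℤ, PathP n P → ∃ α γ : ℤ × ℤ, Rot n α ∧
    ∀ i : Fin (n + 1), ∀ s : ℤ × ℤ, Near m n α γ (P i) s → s ∈ S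

/-- least cardinality of a set `S` of lattice squares in the box `{0, ..., B}²` with the property `FinCov m n` -/
noncomputable def opt (m n B : ℕ) : ℕ :=
  sInf {c : ℕ | ∃ S : Finset (ℤ × ℤ), (∀ s ∈ S, 0 ≤ s.1 ∧ s.1 ≤ B ∧ 0 ≤ s.2 ∧ s.2 ≤ B) ∧ FinCov m n S ∧ S.card = c}

/-- number of lattice squares per unit length in the finite problem number `k` -/
def Mk (k : ℕ) : ℕ := 2 ^ (LL (k + 6) + 3)

/-- the optimal area in the finite problem number `k` -/
noncomputable def optk (k : ℕ) : ℚ := (opt (Mk k) (8 * Mk k) (Mk k ^ 4) : ℚ) / (Mk k : ℚ) ^ 2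

/-- For every `k` the rational number `optk k`, the optimal value of an explicit finite problem on integers,
satisfies `mu ≤ optk k ≤ mu + 2⁻ᵏ`. -/
theorem result : ∀ k : ℕ, mu ≤ ENNReal.ofReal (optk k : ℝ) ∧
    ENNReal.ofReal (optk k : ℝ) ≤ mu + ENNReal.ofReal (1 / 2 ^ k) :=
  Pool.Agent.MW.a_FNL

end Pool.Agent.Results.MP_f477b1_co.FiniteProblems
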