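import Mathlib
import Pool.Agent.helper60.MW.Asm
import Pool.Agent.helper60.MW.FN1

set_option autoImplicit false

/-!
Moser's worm problem (no convexity, connectedness or closedness): the infimum `mu` of the areas of worm
covers is attained, by a sigma-compact set, for the curves of length less than `1`.
-/

namespace Pool.Agent.Results.MP_f477b1_co.InfimumAttained

open MeasureTheory Set

/-- A worm: the image of `[0, 1]` under a `1`-Lipschitz map into the Euclidean plane `ℂ`. -/
def IsWorm (w : Set ℂ) : Prop :=
  ∃ f : ℝ → ℂ, LipschitzOnWith 1 f (Icc 0 1) ∧ w = f '' Icc 0 1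

/-- A worm cover: a Lebesgue measurable set `X` in the plane such that every worm `w` satisfies
`w ⊆ g (X)` for some orientation-preserving rigid motion `g (z) = a * z + b` with `‖a‖ = 1`. -/
def IsWormCover (X : Set ℂ) : Prop :=
  NullMeasurableSet X volume ∧
    ∀ w : Set ℂ, IsWorm w → ∃ a b : ℂ, ‖a‖ = 1 ∧ w ⊆ (fun z => a * z + b) '' X

/-- The infimum of the areas of worm covers. -/
noncomputable def mu : ENNReal := sInf {A : ENNReal | ∃ X : Set ℂ, IsWormCover X ∧ volume X = A}

/-- A Lebesgue measurable set which contains a congruent copy of every curve of length less than `1`: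
for every `c < 1` and every `f` which is `c`-Lipschitz on `[0, 1]`, the set `f '' [0, 1]` is contained in `g (Z)` for
some orientation-preserving rigid motion `g (z) = a * z + b`, `‖a‖ = 1`. -/
def IsShortCover (Z : Set ℂ) : Prop :=
  NullMeasurableSet Z volume ∧
    ∀ (c : NNReal) (f : ℝ → ℂ), c < 1 → LipschitzOnWith c f (Icc 0 1) →
      ∃ a b : ℂ, ‖a‖ = 1 ∧ f '' Icc 0 1 ⊆ (fun z => a * z + b) '' Z

/-- There is a sigma-compact set of area exactly `mu` which contains a congruent copy of every curve of
length less than `1`, and no measurable set with this covering property has smaller area. -/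
theorem result :
    (∃ Z : Set ℂ, IsSigmaCompact Z ∧ IsShortCover Z ∧ volume Z = mu) ∧
      ∀ Z : Set ℂ, IsShortCover Z → mu ≤ volume Z :=
  Pool.Agent.MW.FN1 Pool.Agent.MW.a_MUX Pool.Agent.MW.a_CLS Pool.Agent.MW.a_MSS Pool.Agent.MW.a_SEL
    Pool.Agent.MW.a_LTR Pool.Agent.MW.a_ZME Pool.Agent.MW.a_ZSC Pool.Agent.MW.a_ZCV Pool.Agent.MW.a_MUL

end Pool.Agent.Results.MP_f477b1_co.InfimumAttained
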