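import Mathlib
import Pool.Agent.helper60.MW.AsmC
import Pool.Agent.helper60.MW.FN2

set_option autoImplicit false

/-!
Moser's worm problem (no convexity, connectedness or closedness): worm covers are uniformly thick, with an
explicit thickness (no Besicovitch phenomenon).
-/

namespace Pool.Agent.Results.MP_f477b1_co.UniformThickness

open MeasureTheory Set

/-- A worm: the image of `[0, 1]` under a `1`-Lipschitz map into the Euclidean plane `ℂ`. -/
def IsWorm (w : Set ℂ) : Prop :=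
  ∃ f : ℝ → ℂ, LipschitzOnWith 1 f (Icc 0 1) ∧ w = f '' Icc 0 1

/-- A worm cover: a Lebesgue measurable set `X` in the plane such that every worm `w` satisfies
`w ⊆ g (X)` for some orientation-preserving rigid motion `g (z) = a * z + b` with `‖a‖ = 1`. -/
def IsWormCover (X : Set ℂ) : Prop :=
  NullMeasurableSet X volume ∧
    ∀ w : Set ℂ, IsWorm w → ∃ a b : ℂ, ‖a‖ = 1 ∧ w ⊆ (fun z => a * z + b) '' X

/-- an explicit function -/
def LL (k : ℕ) : ℕ := 2 ^ (2 ^ (2 ^ (10 * k + 100)))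

/-- Every worm cover `X` of area less than `1` admits, for every `k`, a closed set `Y` with
`area (Y \ X) ≤ 2⁻ᵏ` which contains the closed `δ`-neighbourhood, `δ = 1 / 2 ^ LL (k + 1)` (independent of `X`),
of a congruent copy of every curve with Lipschitz constant `1 - 2⁻ᵏ` on `[0, 1]`. -/
theorem result :
    ∀ k : ℕ, ∀ X : Set ℂ, IsWormCover X → volume X < 1 →
      ∃ Y : Set ℂ, IsClosed Y ∧ volume (Y \ X) ≤ ENNReal.ofReal (1 / 2 ^ k) ∧
        ∀ f : ℝ → ℂ, (∀ s ∈ Icc (0 : ℝ) 1, ∀ t ∈ Icc (0 : ℝ) 1, ‖f s - f t‖ ≤ (1 - 1 / 2 ^ k) * |s - t|) →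
          ∃ a b : ℂ, ‖a‖ = 1 ∧
            ∀ t ∈ Icc (0 : ℝ) 1, Metric.closedBall (a * f t + b) (1 / 2 ^ (LL (k + 1))) ⊆ Y :=
  Pool.Agent.MW.FN2 Pool.Agent.MW.a_UTX Pool.Agent.MW.a_WCX

end Pool.Agent.Results.MP_f477b1_co.UniformThickness
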