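import Mathlib
import Pool.Agent.helper17.WormFinal

set_option autoImplicit false

/-!
Moser's worm problem: every worm cover (no convexity, connectedness or closedness assumed)
has area at least `1 / 250`.
-/

namespace Pool.Agent.Results.MP_f477b1_co.WormCoverLowerBound

open MeasureTheory Set

/-- A worm: the image of `[0, 1]` under a `1`-Lipschitz map into the Euclidean plane `ℂ`. -/
def IsWorm (w : Set ℂ) : Prop :=
  ∃ f : ℝ → ℂ, LipschitzOnWith 1 f (Icc 0 1) ∧ w = f '' Icc 0 1

/-- A worm cover: a Lebesgue measurable set `X` in the plane such that every worm `w` satisfies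
`w ⊆ g (X)` for some orientation-preserving rigid motion `g (z) = a * z + b` with `‖a‖ = 1`. -/
def IsWormCover (X : Set ℂ) : Prop :=
  NullMeasurableSet X volume ∧
    ∀ w : Set ℂ, IsWorm w → ∃ a b : ℂ, ‖a‖ = 1 ∧ w ⊆ (fun z => a * z + b) '' X

/-- The infimum of the areas of all worm covers. -/
noncomputable def mu : ENNReal := sInf {A : ENNReal | ∃ X : Set ℂ, IsWormCover X ∧ volume X = A}

/-- The infimum of the areas of worm covers is at least `1 / 250`. -/
theorem result : ENNReal.ofReal (1 / 250) ≤ mu := by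
  refine le_sInf ?_
  rintro A ⟨X, ⟨-, hX⟩, rfl⟩
  by_contra hcon
  rw [not_le] at hcon
  obtain ⟨U, hXU, hU, hUlt⟩ := X.exists_isOpen_lt_of_lt _ hcon
  refine absurd (Pool.Agent.helper17.Worm.open_bound hU ?_) (not_lt.mpr hUlt.le)
  intro f hf
  obtain ⟨a, b, ha, hab⟩ := hX (f '' Icc 0 1) ⟨f, hf.lipschitzOnWith, rfl⟩
  have ha0 : a ≠ 0 := by
    rintro rfl
    simp at ha
  refine ⟨a⁻¹, -(a⁻¹ * b), by rw [norm_inv, ha, inv_one], fun t ht => ?_⟩
  obtain ⟨x, hx, hxt⟩ := hab ⟨t, ht, rfl⟩
  have : a⁻¹ * f t + -(a⁻¹ * b) = x := by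
    rw [← hxt]
    field_simp
    ring
  rw [this]
  exact hXU hx

end Pool.Agent.Results.MP_f477b1_co.WormCoverLowerBound
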